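import Pool.Agent.Q53.AcyclicReorient.Defs

namespace Q53.AcyclicReorient

universe u

variable {V : Type u}

open Relation

lemma acyclic_asymm {D : Digraph V} (h : Acyclic D) {a b : V} (hab : D.Adj a b) : ¬ D.Adj b a :=
  fun hba => h a (TransGen.tail (TransGen.single hab) hba)

lemma acyclic_ne {D : Digraph V} (h : Acyclic D) {a b : V} (hab : D.Adj a b) : a ≠ b := by
  rintro rfl
  exact h a (TransGen.single hab)

/-- A relation obtained by adding one pair. -/
lemma transGen_add_one {R R' : V → V → Prop} {a b : V}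
    (hR : ∀ x y, R' x y → R x y ∨ (x = b ∧ y = a)) {u v : V} (h : TransGen R' u v) :
    TransGen R u v ∨ (ReflTransGen R u b ∧ ReflTransGen R a v) := by
  induction h with
  | single h =>
    rcases hR _ _ h with h | ⟨rfl, rfl⟩
    · exact Or.inl (TransGen.single h)
    · exact Or.inr ⟨ReflTransGen.refl, ReflTransGen.refl⟩
  | tail _ h ih =>
    rcases hR _ _ h with h | ⟨rfl, rfl⟩
    · rcases ih with ih | ⟨ih1, ih2⟩
      · exact Or.inl (ih.tail h)
      · exact Or.inr ⟨ih1, ih2.tail h⟩
    · rcases ih with ih | ⟨ih1, ih2⟩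
      · exact Or.inr ⟨ih.to_reflTransGen, ReflTransGen.refl⟩
      · exact Or.inr ⟨ih1, ReflTransGen.refl⟩

/-- A directed path either stays in `Q` or uses an arc outside `Q`. -/
lemma transGen_split {R Q : V → V → Prop} {u v : V} (h : TransGen R u v) :
    TransGen Q u v ∨ ∃ c d, R c d ∧ ¬ Q c d ∧ ReflTransGen R u c ∧ ReflTransGen R d v := by
  induction h with
  | @single w h =>
    by_cases hQ : Q u w
    · exact Or.inl (TransGen.single hQ)
    · exact Or.inr ⟨u, w, h, hQ, ReflTransGen.refl, ReflTransGen.refl⟩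
  | @tail w z h1 h ih =>
    rcases ih with ih | ⟨c, d, h1, h2, h3, h4⟩
    · by_cases hQ : Q w z
      · exact Or.inl (ih.tail hQ)
      · exact Or.inr ⟨w, z, h, hQ, h1.to_reflTransGen, ReflTransGen.refl⟩
    · exact Or.inr ⟨c, d, h1, h2, h3, h4.tail h⟩

/-- The poset `AR_D` is graded by the number of arcs: between two comparable elements one can
always add a single arc. -/
theorem exists_add_arc [Finite V] {D : Digraph V} (hD : Acyclic D) {S T : Set (V × V)}
    (hST : S ⊆ T) (hne : ¬ T ⊆ S) (hTA : T ⊆ arcs D) (hS : Acyclic (rev D S))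
    (hT : Acyclic (rev D T)) : ∃ e ∈ T, e ∉ S ∧ Acyclic (rev D (insert e S)) := by
  classical
  set μ : V × V → ℕ := fun e =>
    Set.ncard {z | ReflTransGen (rev D S).Adj e.1 z ∧ ReflTransGen (rev D S).Adj z e.2} with hμ
  obtain ⟨e0, he0, he0'⟩ := Set.not_subset.mp hne
  have hfin : (T \ S).Finite := Set.toFinite _
  obtain ⟨e, he, hmin⟩ := Set.exists_min_image (T \ S) μ hfin ⟨e0, he0, he0'⟩
  refine ⟨e, he.1, he.2, ?_⟩
  obtain ⟨a, b⟩ := e
  have hab : D.Adj a b := hTA he.1
  intro v hv
  -- the relation `R`: arcs of `D^S` without `(a, b)`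
  set R : V → V → Prop := fun x y => (rev D S).Adj x y ∧ ¬ (x = a ∧ y = b) with hR
  have h1 : ∀ x y, (rev D (insert (a, b) S)).Adj x y → R x y ∨ (x = b ∧ y = a) := by
    rintro x y (⟨h, h'⟩ | ⟨h, h'⟩)
    · left
      refine ⟨Or.inl ⟨h, fun hh => h' (Set.mem_insert_of_mem _ hh)⟩, ?_⟩
      rintro ⟨rfl, rfl⟩
      exact h' (Set.mem_insert _ _)
    · rcases Set.mem_insert_iff.mp h' with h' | h'
      · right
        rw [Prod.mk.injEq] at h'
        exact ⟨h'.2, h'.1⟩
      · left
        refine ⟨Or.inr ⟨h, h'⟩, ?_⟩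
        rintro ⟨rfl, rfl⟩
        exact acyclic_asymm hD h hab
  have hRS : ∀ {x y}, TransGen R x y → TransGen (rev D S).Adj x y := fun h =>
    TransGen.mono (fun _ _ h => h.1) _ _ h
  have hRS' : ∀ {x y}, ReflTransGen R x y → ReflTransGen (rev D S).Adj x y := fun h =>
    ReflTransGen.mono (fun _ _ h => h.1) _ _ h
  have hpath : TransGen R a b := by
    rcases transGen_add_one h1 hv with h | ⟨h, h'⟩
    · exact absurd (hRS h) (hS v)
    · have := h'.trans h
      rcases reflTransGen_iff_eq_or_transGen.mp this with h | h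
      · exact absurd h.symm (acyclic_ne hD hab)
      · exact h
  rcases transGen_split (Q := (rev D T).Adj) hpath with h | ⟨c, d, h1, h2, h3, h4⟩
  · exact hT a (h.tail (Or.inr ⟨hab, he.1⟩))
  · -- the arc `(c, d)` is in `T \ S`
    have hcd : D.Adj c d ∧ (c, d) ∉ S := by
      rcases h1.1 with h | h
      · exact h
      · exact absurd (Or.inr ⟨h.1, hST h.2⟩) h2
    have hcdT : (c, d) ∈ T := by
      by_contra hcon
      exact h2 (Or.inl ⟨hcd.1, hcon⟩)
    have hle := hmin (c, d) ⟨hcdT, hcd.2⟩
    have hlt : μ (c, d) < μ (a, b) := by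
      simp only [hμ]
      apply Set.ncard_lt_ncard _ (Set.toFinite _)
      rw [Set.ssubset_iff_subset_ne]
      constructor
      · rintro z ⟨hz1, hz2⟩
        exact ⟨(hRS' h3).trans hz1, hz2.trans (hRS' h4)⟩
      · intro heq
        have ha : a ∈ {z | ReflTransGen (rev D S).Adj (c, d).1 z ∧
            ReflTransGen (rev D S).Adj z (c, d).2} := by
          rw [heq]
          exact ⟨ReflTransGen.refl, (hRS hpath).to_reflTransGen⟩
        have hb : b ∈ {z | ReflTransGen (rev D S).Adj (c, d).1 z ∧
            ReflTransGen (rev D S).Adj z (c, d).2} := by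
          rw [heq]
          exact ⟨(hRS hpath).to_reflTransGen, ReflTransGen.refl⟩
        have hca : c = a := by
          rcases reflTransGen_iff_eq_or_transGen.mp ha.1 with h | h
          · exact h.symm
          · exact absurd (TransGen.trans_right (hRS' h3) h) (hS a)
        have hdb : d = b := by
          rcases reflTransGen_iff_eq_or_transGen.mp hb.2 with h | h
          · exact h
          · exact absurd (TransGen.trans_left h (hRS' h4)) (hS b)
        exact h1.2 ⟨hca, hdb⟩
    omega

lemma rev_empty (D : Digraph V) (x y : V) : (rev D ∅).Adj x y ↔ D.Adj x y := by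
  simp [rev]

lemma empty_mem {D : Digraph V} (hD : Acyclic D) : Acyclic (rev D ∅) := by
  intro v hv
  exact hD v (TransGen.mono (fun a b h => (rev_empty D a b).mp h) _ _ hv)

lemma full_mem {D : Digraph V} (hD : Acyclic D) : Acyclic (rev D (arcs D)) := by
  intro v hv
  have h1 : ∀ x y, (rev D (arcs D)).Adj x y → Function.swap D.Adj x y := by
    rintro x y (⟨h, h'⟩ | ⟨h, h'⟩)
    · exact absurd h h'
    · exact h
  have h2 : TransGen (Function.swap D.Adj) v v := TransGen.mono h1 _ _ hv
  rw [transGen_swap] at h2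
  exact hD v h2

end Q53.AcyclicReorient
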