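import Pool.Agent.Q53.AcyclicReorient.Basic

namespace Q53.AcyclicReorient

universe u v

variable {P : Type u} {α : Type v}

lemma mem_of_comparable [PartialOrder P] {M : Set P} (hM : IsMaxChain (· ≤ ·) M) {x : P}
    (hx : ∀ k ∈ M, x ≤ k ∨ k ≤ x) : x ∈ M := by
  have h := hM.2 (hM.1.insert (fun k hk _ => hx k hk)) (Set.subset_insert x M)
  rw [h]
  exact Set.mem_insert _ _

/-- In a lattice of sets in which the traces on `A` avoid `F` and `B` and only these, both `F` and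
`B` cannot have two elements. -/
theorem core_two [Lattice P] (φ : P → Set α) (hφ : ∀ a b, a ≤ b ↔ φ a ⊆ φ b)
    (Fam : Set (Set α)) (hmem1 : ∀ a, φ a ∈ Fam) (hmem2 : ∀ S ∈ Fam, ∃ a, φ a = S)
    (A F B O : Set α) (hFA : F ⊆ A) (hBA : B ⊆ A) (hdis : ∀ x ∈ F, x ∉ B)
    (hO : ∀ x ∈ O, x ∉ A)
    (hnF : ∀ S ∈ Fam, S ∩ A ≠ F)
    (hmem : ∀ R ⊆ A, R ≠ F → R ≠ B → O ∪ R ∈ Fam)
    {f1 f2 b1 b2 : α} (hf1 : f1 ∈ F) (hf2 : f2 ∈ F) (hf : f1 ≠ f2) (hb1 : b1 ∈ B) (hb2 : b2 ∈ B)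
    (hb : b1 ≠ b2) : False := by
  obtain ⟨x, hx⟩ := hmem2 _ (hmem {f1} (by rintro _ rfl; exact hFA hf1)
    (by rintro rfl; exact hf hf2.symm) (by rintro rfl; exact hdis _ hf1 rfl))
  obtain ⟨y, hy⟩ := hmem2 _ (hmem (F \ {f1}) (fun z hz => hFA hz.1)
    (fun h => by
      have : f1 ∈ F \ {f1} := by rw [h]; exact hf1
      exact this.2 rfl)
    (fun h => by
      have : f2 ∈ B := by rw [← h]; exact ⟨hf2, fun hh => hf hh.symm⟩
      exact hdis _ hf2 this))
  have key : ∀ b ∈ B, ∃ z, φ z = O ∪ (F ∪ {b}) := by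
    intro b hb
    apply hmem2 _ (hmem _ _ _ _)
    · rintro z (hz | rfl)
      · exact hFA hz
      · exact hBA hb
    · intro h
      have : b ∈ F := by rw [← h]; exact Or.inr rfl
      exact hdis _ this hb
    · intro h
      have : f1 ∈ B := by rw [← h]; exact Or.inl hf1
      exact hdis _ hf1 this
  obtain ⟨z1, hz1⟩ := key b1 hb1
  obtain ⟨z2, hz2⟩ := key b2 hb2
  have hup : ∀ b ∈ B, ∀ z, φ z = O ∪ (F ∪ {b}) → x ⊔ y ≤ z := by
    intro b _ z hz
    apply sup_le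
    · rw [hφ, hx, hz]
      rintro w (hw | rfl)
      · exact Or.inl hw
      · exact Or.inr (Or.inl hf1)
    · rw [hφ, hy, hz]
      rintro w (hw | hw)
      · exact Or.inl hw
      · exact Or.inr (Or.inl hw.1)
  have h1 := (hφ _ _).mp (hup b1 hb1 z1 hz1)
  have h2 := (hφ _ _).mp (hup b2 hb2 z2 hz2)
  rw [hz1] at h1
  rw [hz2] at h2
  apply hnF (φ (x ⊔ y)) (hmem1 _)
  ext w
  constructor
  · rintro ⟨hw, hwA⟩
    rcases h1 hw with hw1 | hw1 | hw1
    · exact absurd hwA (hO w hw1)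
    · exact hw1
    · rcases h2 hw with hw2 | hw2 | hw2
      · exact absurd hwA (hO w hw2)
      · exact hw2
      · rw [Set.mem_singleton_iff] at hw1 hw2
        exact absurd (hw1.symm.trans hw2) hb
  · intro hw
    refine ⟨?_, hFA hw⟩
    by_cases h : w = f1
    · subst h
      have := (hφ _ _).mp (le_sup_left : x ≤ x ⊔ y)
      apply this
      rw [hx]
      exact Or.inr rfl
    · have := (hφ _ _).mp (le_sup_right : y ≤ x ⊔ y)
      apply this
      rw [hy]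
      exact Or.inr ⟨hw, h⟩

/-- The case in which one of the two forbidden traces is a singleton. -/
theorem core_one [Finite P] [Lattice P] (φ : P → Set α) (hφ : ∀ a b, a ≤ b ↔ φ a ⊆ φ b)
    (Fam : Set (Set α)) (hmem1 : ∀ a, φ a ∈ Fam) (hmem2 : ∀ S ∈ Fam, ∃ a, φ a = S)
    (hemp : ∅ ∈ Fam) (U : Set α) (hU : U ∈ Fam) (hUmax : ∀ S ∈ Fam, S ⊆ U)
    (hgr : ∀ S ∈ Fam, ∀ T ∈ Fam, S ⊆ T → ¬ T ⊆ S → ∃ e ∈ T, e ∉ S ∧ insert e S ∈ Fam)
    (A B O : Set α) (f : α) (hfU : f ∈ U) (hfB : f ∉ B) (hA : A = insert f B)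
    (hO : ∀ x ∈ O, x ∉ A)
    (hnF : ∀ S ∈ Fam, S ∩ A ≠ {f}) (hnB : ∀ S ∈ Fam, S ∩ A ≠ B)
    (hmem : ∀ R ⊆ A, R ≠ {f} → R ≠ B → O ∪ R ∈ Fam) : ¬ Supersolvable P := by
  rintro ⟨M, hM, hK⟩
  obtain ⟨bot, hbot⟩ := hmem2 _ hemp
  obtain ⟨top, htop⟩ := hmem2 _ hU
  have hbotM : bot ∈ M := mem_of_comparable hM (fun k _ => Or.inl (by
    rw [hφ, hbot]; exact Set.empty_subset _))
  have htopM : top ∈ M := mem_of_comparable hM (fun k _ => Or.inr (by
    rw [hφ, htop]; exact hUmax _ (hmem1 k)))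
  obtain ⟨m', hm'⟩ : ∃ m', Maximal (· ∈ {m | m ∈ M ∧ f ∉ φ m}) m' :=
    Set.Finite.exists_maximal (Set.toFinite _) ⟨bot, hbotM, by rw [hbot]; exact fun h => h⟩
  obtain ⟨m, hm⟩ : ∃ m, Minimal (· ∈ {m | m ∈ M ∧ f ∈ φ m}) m :=
    Set.Finite.exists_minimal (Set.toFinite _) ⟨top, htopM, by rw [htop]; exact hfU⟩
  have hk0 : ∀ k ∈ M, f ∉ φ k → k ≤ m' := by
    intro k hk hf
    rcases hM.1.total hk hm'.1.1 with h | h
    · exact h
    · exact hm'.2 ⟨hk, hf⟩ h
  have hk1 : ∀ k ∈ M, f ∈ φ k → m ≤ k := by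
    intro k hk hf
    rcases hM.1.total hk hm.1.1 with h | h
    · exact hm.2 ⟨hk, hf⟩ h
    · exact h
  have hm'm : m' ≤ m := by
    rcases hM.1.total hm'.1.1 hm.1.1 with h | h
    · exact h
    · exact absurd ((hφ _ _).mp h hm.1.2) hm'.1.2
  obtain ⟨e, he1, he2, he3⟩ := hgr _ (hmem1 m') _ (hmem1 m) ((hφ _ _).mp hm'm)
    (fun h => hm'.1.2 (h hm.1.2))
  obtain ⟨x, hx⟩ := hmem2 _ he3
  have hm'x : m' ≤ x := by rw [hφ, hx]; exact Set.subset_insert _ _
  have hxm : x ≤ m := by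
    rw [hφ, hx]
    rintro z (rfl | hz)
    · exact he1
    · exact (hφ _ _).mp hm'm hz
  have hxM : x ∈ M := by
    apply mem_of_comparable hM
    intro k hk
    by_cases hf : f ∈ φ k
    · exact Or.inl (hxm.trans (hk1 k hk hf))
    · exact Or.inr ((hk0 k hk hf).trans hm'x)
  have hef : e = f := by
    by_contra hne
    have hfx : f ∉ φ x := by
      rw [hx]
      rintro (h | h)
      · exact hne h.symm
      · exact hm'.1.2 h
    have := (hφ _ _).mp (hk0 x hxM hfx)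
    apply he2
    apply this
    rw [hx]
    exact Set.mem_insert _ _
  subst hef
  -- now `m' ∪ {f}` is in the family
  set E0 : Set α := φ m' ∩ A with hE0
  have hE0B : E0 ⊆ B := by
    rintro z ⟨hz, hzA⟩
    rw [hA] at hzA
    rcases hzA with rfl | h
    · exact absurd hz he2
    · exact h
  have hE0ne : E0 ≠ ∅ := by
    intro h
    apply hnF _ he3
    ext z
    constructor
    · rintro ⟨hz | hz, hzA⟩
      · exact hz
      · have : z ∈ E0 := ⟨hz, hzA⟩
        rw [h] at this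
        exact absurd this (Set.notMem_empty z)
    · rintro rfl
      exact ⟨Set.mem_insert _ _, by rw [hA]; exact Set.mem_insert _ _⟩
  obtain ⟨b0, hb0⟩ : E0.Nonempty := Set.nonempty_iff_ne_empty.mpr hE0ne
  have hE0nB : E0 ≠ B := hnB _ (hmem1 m')
  obtain ⟨b1, hb1, hb1'⟩ : ∃ b1 ∈ B, b1 ∉ E0 := by
    by_contra hcon
    push Not at hcon
    exact hE0nB (Set.Subset.antisymm hE0B hcon)
  have hfA : e ∈ A := by rw [hA]; exact Set.mem_insert _ _
  have hBA : B ⊆ A := by rw [hA]; exact Set.subset_insert _ _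
  obtain ⟨y, hy⟩ := hmem2 _ (hmem (B \ E0) (fun z hz => hBA hz.1)
    (fun h => by
      have : b1 ∈ ({e} : Set α) := by rw [← h]; exact ⟨hb1, hb1'⟩
      rw [Set.mem_singleton_iff] at this
      exact hfB (this ▸ hb1))
    (fun h => by
      have : b0 ∈ B \ E0 := by rw [h]; exact hE0B hb0
      exact this.2 hb0))
  obtain ⟨z, hz⟩ := hmem2 _ (hmem (insert e (B \ E0)) (by
      rintro w (rfl | hw)
      · exact hfA
      · exact hBA hw.1)
    (fun h => by
      have : b1 ∈ ({e} : Set α) := by rw [← h]; exact Or.inr ⟨hb1, hb1'⟩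
      rw [Set.mem_singleton_iff] at this
      exact hfB (this ▸ hb1))
    (fun h => by
      have : e ∈ B := by rw [← h]; exact Set.mem_insert _ _
      exact hfB this))
  have hyz : y ≤ z := by
    rw [hφ, hy, hz]
    rintro w (hw | hw)
    · exact Or.inl hw
    · exact Or.inr (Or.inr hw)
  have hzsup : z ≤ m' ⊔ y := by
    have h1 : φ m' ⊆ φ (m' ⊔ y) := (hφ _ _).mp le_sup_left
    have h2 : φ y ⊆ φ (m' ⊔ y) := (hφ _ _).mp le_sup_right
    have hB : B ⊆ φ (m' ⊔ y) := by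
      intro w hw
      by_cases h : w ∈ E0
      · exact h1 h.1
      · apply h2
        rw [hy]
        exact Or.inr ⟨hw, h⟩
    have hf : e ∈ φ (m' ⊔ y) := by
      by_contra hcon
      apply hnB _ (hmem1 (m' ⊔ y))
      ext w
      constructor
      · rintro ⟨hw, hwA⟩
        rw [hA] at hwA
        rcases hwA with rfl | h
        · exact absurd hw hcon
        · exact h
      · intro hw
        exact ⟨hB hw, hBA hw⟩
    rw [hφ, hz]
    rintro w (hw | rfl | hw)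
    · apply h2
      rw [hy]
      exact Or.inl hw
    · exact hf
    · exact hB hw.1
  have hinf : z ⊓ m' ≤ y := by
    rw [hφ, hy]
    intro w hw
    have h1 : w ∈ φ z := (hφ _ _).mp inf_le_left hw
    have h2 : w ∈ φ m' := (hφ _ _).mp inf_le_right hw
    rw [hz] at h1
    rcases h1 with h1 | rfl | h1
    · exact Or.inl h1
    · exact absurd h2 he2
    · exact Or.inr h1
  have hchain : IsChain (· ≤ ·) ({y, z} : Set P) := by
    rintro a (rfl | rfl) b (rfl | rfl) hne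
    · exact absurd rfl hne
    · exact Or.inl hyz
    · exact Or.inr hyz
    · exact absurd rfl hne
  have hcl : M ∪ {y, z} ⊆ latticeClosure (M ∪ {y, z}) := subset_latticeClosure
  have := hK {y, z} hchain z (hcl (Or.inr (Or.inr rfl))) m' (hcl (Or.inl hm'.1.1)) y
    (hcl (Or.inr (Or.inl rfl)))
  rw [inf_eq_left.mpr hzsup, inf_eq_right.mpr hyz, sup_eq_right.mpr hinf] at this
  have hfy : e ∈ φ y := by
    rw [← this, hz]
    exact Or.inr (Set.mem_insert _ _)
  rw [hy] at hfy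
  rcases hfy with h | h
  · exact hO _ h hfA
  · exact hfB h.1

/-- The two cases together. -/
theorem core [Finite P] [Lattice P] (φ : P → Set α) (hφ : ∀ a b, a ≤ b ↔ φ a ⊆ φ b)
    (Fam : Set (Set α)) (hmem1 : ∀ a, φ a ∈ Fam) (hmem2 : ∀ S ∈ Fam, ∃ a, φ a = S)
    (hemp : ∅ ∈ Fam) (U : Set α) (hU : U ∈ Fam) (hUmax : ∀ S ∈ Fam, S ⊆ U)
    (hgr : ∀ S ∈ Fam, ∀ T ∈ Fam, S ⊆ T → ¬ T ⊆ S → ∃ e ∈ T, e ∉ S ∧ insert e S ∈ Fam)
    (A F B O : Set α) (hAU : A ⊆ U) (hA : A = F ∪ B) (hdis : ∀ x ∈ F, x ∉ B)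
    (hO : ∀ x ∈ O, x ∉ A)
    (hnF : ∀ S ∈ Fam, S ∩ A ≠ F) (hnB : ∀ S ∈ Fam, S ∩ A ≠ B)
    (hmem : ∀ R ⊆ A, R ≠ F → R ≠ B → O ∪ R ∈ Fam) : ¬ Supersolvable P := by
  have hFne : F.Nonempty := by
    rw [Set.nonempty_iff_ne_empty]
    rintro rfl
    exact hnF ∅ hemp (Set.empty_inter _)
  have hBne : B.Nonempty := by
    rw [Set.nonempty_iff_ne_empty]
    rintro rfl
    exact hnB ∅ hemp (Set.empty_inter _)
  obtain ⟨f1, hf1⟩ := hFne
  obtain ⟨b1, hb1⟩ := hBne
  by_cases hF1 : F = {f1}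
  · apply core_one φ hφ Fam hmem1 hmem2 hemp U hU hUmax hgr A B O f1
      (hAU (by rw [hA]; exact Or.inl hf1)) (hdis _ hf1) (by rw [hA, hF1]; rfl) hO
      (fun S hS => by rw [← hF1]; exact hnF S hS) hnB
      (fun R hR h1 h2 => hmem R hR (by rw [hF1]; exact h1) h2)
  by_cases hB1 : B = {b1}
  · apply core_one φ hφ Fam hmem1 hmem2 hemp U hU hUmax hgr A F O b1
      (hAU (by rw [hA]; exact Or.inr hb1)) (fun h => hdis _ h hb1)
      (by rw [hA, hB1, Set.union_comm]; rfl) hO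
      (fun S hS => by rw [← hB1]; exact hnB S hS) hnF
      (fun R hR h1 h2 => hmem R hR h2 (by rw [hB1]; exact h1))
  · intro _
    obtain ⟨f2, hf2, hf⟩ : ∃ f2 ∈ F, f1 ≠ f2 := by
      by_contra hcon
      push Not at hcon
      apply hF1
      ext z
      constructor
      · intro hz
        exact (hcon z hz).symm
      · rintro rfl
        exact hf1
    obtain ⟨b2, hb2, hb⟩ : ∃ b2 ∈ B, b1 ≠ b2 := by
      by_contra hcon
      push Not at hcon
      apply hB1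
      ext z
      constructor
      · intro hz
        exact (hcon z hz).symm
      · rintro rfl
        exact hb1
    exact core_two φ hφ Fam hmem1 hmem2 A F B O (by rw [hA]; exact Set.subset_union_left)
      (by rw [hA]; exact Set.subset_union_right) hdis hO hnF hmem hf1 hf2 hf hb1 hb2 hb

end Q53.AcyclicReorient
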