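import Pool.Agent.Q53.AcyclicReorient.Core

namespace Q53.AcyclicReorient

universe u

variable {V : Type u}

open Relation

/-- `p 0, …, p n` is a cycle (with `n + 1 ≥ 3` vertices) of the graph `G`. -/
structure Cyc (G : SimpleGraph V) (n : ℕ) (p : ℕ → V) : Prop where
  two_le : 2 ≤ n
  inj : ∀ i ≤ n, ∀ j ≤ n, p i = p j → i = j
  adj : ∀ i < n, G.Adj (p i) (p (i + 1))
  close : G.Adj (p n) (p 0)

lemma exists_cyc {G : SimpleGraph V} (h : ¬ G.IsAcyclic) : ∃ n p, Cyc G n p := by
  unfold SimpleGraph.IsAcyclic at h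
  push Not at h
  obtain ⟨v, w, hw⟩ := h
  have h3 := hw.three_le_length
  refine ⟨w.length - 1, w.getVert, ⟨by omega, ?_, ?_, ?_⟩⟩
  · intro i hi j hj hij
    exact hw.getVert_injOn' (by rw [Set.mem_ofPred_eq]; exact hi)
      (by rw [Set.mem_ofPred_eq]; exact hj) hij
  · intro i hi
    exact w.adj_getVert_succ (by omega)
  · have h := w.adj_getVert_succ (i := w.length - 1) (by omega)
    have h1 : w.length - 1 + 1 = w.length := by omega
    rw [h1, w.getVert_length] at h
    rw [w.getVert_zero]
    exact h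

lemma not_isAcyclic_of_cyc {G : SimpleGraph V} {n : ℕ} {p : ℕ → V} (h : Cyc G n p) :
    ¬ G.IsAcyclic := by
  intro hG
  have hb := SimpleGraph.isAcyclic_iff_forall_adj_isBridge.mp hG h.close
  rw [SimpleGraph.isBridge_iff] at hb
  apply hb
  have h2 := h.two_le
  have key : ∀ i ≤ n, (G.deleteEdges {s(p n, p 0)}).Reachable (p 0) (p i) := by
    intro i
    induction i with
    | zero => intro _; exact SimpleGraph.Reachable.refl _
    | succ i ih =>
      intro hi
      refine (ih (by omega)).trans (SimpleGraph.Adj.reachable ?_)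
      rw [SimpleGraph.deleteEdges_adj]
      refine ⟨h.adj i (by omega), ?_⟩
      rw [Set.mem_singleton_iff, Sym2.eq_iff]
      rintro (⟨h1, h2⟩ | ⟨h1, h2⟩)
      · have := h.inj _ (by omega) _ (by omega) h2
        omega
      · have h3 := h.inj _ (by omega) _ (by omega) h1
        have h4 := h.inj _ (by omega) _ (by omega) h2
        omega
  exact (key n le_rfl).symm

/-- A shortest cycle has no chords. -/
lemma exists_induced_cyc {G : SimpleGraph V} (h : ¬ G.IsAcyclic) :
    ∃ n p, Cyc G n p ∧ ∀ i j, i < j → j ≤ n → G.Adj (p i) (p j) → j = i + 1 ∨ (i = 0 ∧ j = n) := by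
  classical
  have hex : ∃ n, ∃ p, Cyc G n p := exists_cyc h
  obtain ⟨p, hp⟩ := Nat.find_spec hex
  refine ⟨Nat.find hex, p, hp, ?_⟩
  intro i j hij hj hadj
  by_contra hcon
  push Not at hcon
  have hlt : j - i < Nat.find hex := by
    rcases Nat.lt_or_ge (j - i) (Nat.find hex) with h | h
    · exact h
    · exact absurd (show j = Nat.find hex by omega) (hcon.2 (by omega))
  apply Nat.find_min hex hlt
  refine ⟨fun t => p (i + t), ⟨?_, ?_, ?_, ?_⟩⟩
  · have := hcon.1
    omega
  · intro a ha b hb hab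
    have := hp.inj (i + a) (by omega) (i + b) (by omega) hab
    omega
  · intro a ha
    exact hp.adj (i + a) (by omega)
  · simp only [Nat.add_zero]
    have h1 : i + (j - i) = j := by omega
    rw [h1]
    exact hadj.symm

/-- A potential on the vertices of a path with a prescribed increasing or decreasing step, with
smaller value at the end, provided that some step is decreasing. -/
lemma exists_potential (n : ℕ) (s : ℕ → Prop) (hs : ∃ i < n, ¬ s i) :
    ∃ H : ℕ → ℤ, (∀ i < n, s i → H i < H (i + 1)) ∧ (∀ i < n, ¬ s i → H (i + 1) < H i) ∧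
      H n < H 0 := by
  classical
  set H : ℕ → ℤ := fun j => Nat.rec 0 (fun i a => a + if s i then 1 else -((n : ℤ) + 1)) j with hH
  have h0 : H 0 = 0 := rfl
  have h1 : ∀ j, H (j + 1) = H j + if s j then 1 else -((n : ℤ) + 1) := fun j => rfl
  have hbound : ∀ j, H j ≤ j ∧ ((∃ i < j, ¬ s i) → H j ≤ (j : ℤ) - (n + 1)) := by
    intro j
    induction j with
    | zero =>
      refine ⟨by rw [h0]; simp, ?_⟩
      rintro ⟨i, hi, _⟩
      omega
    | succ j ih =>
      rw [h1]
      constructor
      · split_ifs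
        · push_cast; linarith [ih.1]
        · push_cast; linarith [ih.1]
      · rintro ⟨i, hi, hsi⟩
        by_cases hsj : s j
        · rw [if_pos hsj]
          have hij : i < j := by
            rcases Nat.lt_or_ge i j with h | h
            · exact h
            · have : i = j := by omega
              rw [this] at hsi
              exact absurd hsj hsi
          have := ih.2 ⟨i, hij, hsi⟩
          push_cast
          linarith
        · rw [if_neg hsj]
          have := ih.1
          push_cast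
          linarith
  refine ⟨H, ?_, ?_, ?_⟩
  · intro i _ hsi
    rw [h1, if_pos hsi]
    linarith
  · intro i _ hsi
    rw [h1, if_neg hsi]
    linarith
  · have := (hbound n).2 hs
    rw [h0]
    linarith

/-- Gluing: a digraph is acyclic if no arc enters `X`, the part outside `X` is acyclic, and there is
a potential on `X`. -/
lemma acyclic_glue {D : Digraph V} (X : Set V) (T : V → V → Prop) (hT : ∀ v, ¬ TransGen T v v)
    (h : V → ℤ)
    (h1 : ∀ u v, D.Adj u v → v ∈ X → u ∈ X)
    (h2 : ∀ u v, D.Adj u v → u ∉ X → T u v)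
    (h3 : ∀ u v, D.Adj u v → u ∈ X → v ∈ X → h u < h v) : Acyclic D := by
  have key : ∀ u v, TransGen D.Adj u v →
      (u ∈ X ∧ v ∉ X) ∨ (u ∈ X ∧ v ∈ X ∧ h u < h v) ∨ (u ∉ X ∧ v ∉ X ∧ TransGen T u v) := by
    intro u v huv
    induction huv with
    | @single v huv =>
      by_cases hu : u ∈ X
      · by_cases hv : v ∈ X
        · exact Or.inr (Or.inl ⟨hu, hv, h3 _ _ huv hu hv⟩)
        · exact Or.inl ⟨hu, hv⟩
      · have hv : v ∉ X := fun hv => hu (h1 _ _ huv hv)
        exact Or.inr (Or.inr ⟨hu, hv, TransGen.single (h2 _ _ huv hu)⟩)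
    | @tail v w _ hvw ih =>
      rcases ih with ⟨hu, hv⟩ | ⟨hu, hv, hlt⟩ | ⟨hu, hv, ht⟩
      · exact Or.inl ⟨hu, fun hw => hv (h1 _ _ hvw hw)⟩
      · by_cases hw : w ∈ X
        · exact Or.inr (Or.inl ⟨hu, hw, hlt.trans (h3 _ _ hvw hv hw)⟩)
        · exact Or.inl ⟨hu, hw⟩
      · exact Or.inr (Or.inr ⟨hu, fun hw => hv (h1 _ _ hvw hw), ht.tail (h2 _ _ hvw hv)⟩)
  intro v hv
  rcases key v v hv with ⟨h, h'⟩ | ⟨_, _, h⟩ | ⟨_, _, h⟩
  · exact h' h
  · exact lt_irrefl _ h
  · exact hT v h

end Q53.AcyclicReorient
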