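import Mathlib

/-!
# Acyclic reorientation posets: definitions

Digraphs are `Digraph V` (a binary relation `Adj`), on a finite vertex type. An acyclic digraph has
no loops and at most one arc between any two vertices, because a loop and a pair of opposite arcs
are directed cycles.
-/

namespace Q53.AcyclicReorient

universe u

variable {V : Type u}

/-- The set of arcs of a digraph. -/
def arcs (D : Digraph V) : Set (V × V) := {p | D.Adj p.1 p.2}

/-- A digraph is acyclic if it has no directed cycle, that is, no vertex can be reached from itself
by a nonempty directed walk. -/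
def Acyclic (D : Digraph V) : Prop := ∀ v, ¬ Relation.TransGen D.Adj v v

/-- The digraph `D^S`, obtained from `D` by reversing the arcs in `S`. -/
def rev (D : Digraph V) (S : Set (V × V)) : Digraph V where
  Adj u v := (D.Adj u v ∧ (u, v) ∉ S) ∨ (D.Adj v u ∧ (v, u) ∈ S)

/-- The acyclic reorientation poset `AR_D`: the sets `S` of arcs of `D` for which `D^S` is acyclic,
ordered by inclusion (the order of a subtype of `Set (V × V)`). -/
abbrev AR (D : Digraph V) : Type u := {S : Set (V × V) // S ⊆ arcs D ∧ Acyclic (rev D S)}

/-- The underlying simple graph of a digraph. -/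
def underlying (D : Digraph V) : SimpleGraph V := SimpleGraph.fromRel D.Adj

/-- A partially ordered set is a lattice if any two elements have a least upper bound and a
greatest lower bound. -/
def IsLatticeOrder (P : Type u) [PartialOrder P] : Prop :=
  ∀ a b : P, (∃ j, IsLUB {a, b} j) ∧ ∃ m, IsGLB {a, b} m

/-- Stanley's definition of a supersolvable lattice: there is a maximal chain `M` such that for every
chain `K` the sublattice generated by `M ∪ K` is distributive. -/
def Supersolvable (L : Type u) [Lattice L] : Prop :=
  ∃ M : Set L, IsMaxChain (· ≤ ·) M ∧ ∀ K : Set L, IsChain (· ≤ ·) K →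
    ∀ a ∈ latticeClosure (M ∪ K), ∀ b ∈ latticeClosure (M ∪ K), ∀ c ∈ latticeClosure (M ∪ K),
      a ⊓ (b ⊔ c) = (a ⊓ b) ⊔ (a ⊓ c)

/-- The partially ordered set `P` is a lattice, and this lattice is supersolvable. -/
def IsSupersolvableLattice (P : Type u) [inst : PartialOrder P] : Prop :=
  ∃ L : Lattice P, L.toPartialOrder = inst ∧ @Supersolvable P L

/-- `v` is a source of the subdigraph of `D` induced by `X`. -/
def IsSourceIn (D : Digraph V) (X : Set V) (v : V) : Prop := ∀ u ∈ X, ¬ D.Adj u v

/-- `v` is a sink of the subdigraph of `D` induced by `X`. -/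
def IsSinkIn (D : Digraph V) (X : Set V) (v : V) : Prop := ∀ u ∈ X, ¬ D.Adj v u

/-- `v` is simplicial in the underlying graph of the subdigraph of `D` induced by `X`: its
neighbours in `X` are pairwise adjacent. -/
def IsSimplicialIn (D : Digraph V) (X : Set V) (v : V) : Prop :=
  ∀ a ∈ X, ∀ b ∈ X, a ≠ b → (underlying D).Adj v a → (underlying D).Adj v b →
    (underlying D).Adj a b

/-- The subdigraph of `D` induced by `X` is peo-consistent: it has at most one vertex, or it has a
vertex `v` which is a source or a sink and simplicial, such that the subdigraph induced by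
`X \ {v}` is peo-consistent. -/
inductive PeoOn (D : Digraph V) : Set V → Prop
  | small (X : Set V) (h : X.Subsingleton) : PeoOn D X
  | step (X : Set V) (v : V) (hv : v ∈ X) (h1 : IsSourceIn D X v ∨ IsSinkIn D X v)
      (h2 : IsSimplicialIn D X v) (h3 : PeoOn D (X \ {v})) : PeoOn D X

/-- `D` is peo-consistent. -/
def PeoConsistent (D : Digraph V) : Prop := PeoOn D Set.univ

/-- The transitive tournament with vertices `0, …, n - 1` and arcs `i → j` for `i < j`. Its acyclic
reorientation poset is the weak order of the symmetric group. -/
def transTournament (n : ℕ) : Digraph (Fin n) where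
  Adj i j := i < j

end Q53.AcyclicReorient
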