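import Pool.Agent.Q53.AcyclicReorient.Necessity

namespace Q53.AcyclicReorient

universe u

variable {V : Type u}

open Relation

/-- Every orientation of a forest is acyclic. -/
lemma acyclic_of_forest {G : SimpleGraph V} (hG : G.IsAcyclic) {D : Digraph V}
    (h1 : ∀ a b, D.Adj a b → G.Adj a b) (h2 : ∀ a b, D.Adj a b → ¬ D.Adj b a) : Acyclic D := by
  intro v hv
  obtain ⟨w, hvw, hwv⟩ := TransGen.head'_iff.mp hv
  have hb := SimpleGraph.isAcyclic_iff_forall_adj_isBridge.mp hG (h1 _ _ hvw)
  rw [SimpleGraph.isBridge_iff] at hb
  apply hb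
  have key : ∀ x, ReflTransGen D.Adj x v → (G.deleteEdges {s(v, w)}).Reachable x v := by
    intro x hx
    induction hx using ReflTransGen.head_induction_on with
    | refl => exact SimpleGraph.Reachable.refl _
    | @head x y hxy _ ih =>
      by_cases hx : x = v
      · subst hx
        exact SimpleGraph.Reachable.refl _
      · refine SimpleGraph.Reachable.trans (SimpleGraph.Adj.reachable ?_) ih
        rw [SimpleGraph.deleteEdges_adj]
        refine ⟨h1 _ _ hxy, ?_⟩
        rw [Set.mem_singleton_iff, Sym2.eq_iff]
        rintro (⟨h3, _⟩ | ⟨h3, h4⟩)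
        · exact hx h3
        · subst h3 h4
          exact h2 _ _ hvw hxy
  exact (key w hwv).symm

lemma rev_adj_underlying {D : Digraph V} (hD : Acyclic D) {S : Set (V × V)} {a b : V}
    (h : (rev D S).Adj a b) : (underlying D).Adj a b := by
  rcases h with ⟨h, _⟩ | ⟨h, _⟩
  · exact adj_underlying hD h
  · exact (adj_underlying hD h).symm

lemma rev_asymm {D : Digraph V} (hD : Acyclic D) {S : Set (V × V)} {a b : V}
    (h : (rev D S).Adj a b) : ¬ (rev D S).Adj b a := by
  rcases h with ⟨h1, h2⟩ | ⟨h1, h2⟩ <;> rintro (⟨h3, h4⟩ | ⟨h3, h4⟩)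
  · exact acyclic_asymm hD h1 h3
  · exact h2 h4
  · exact h4 h2
  · exact acyclic_asymm hD h1 h3

/-- In a forest all sets of arcs can be reversed. -/
lemma all_acyclic {D : Digraph V} (hD : Acyclic D) (hG : (underlying D).IsAcyclic)
    (S : Set (V × V)) : Acyclic (rev D S) :=
  acyclic_of_forest hG (fun _ _ h => rev_adj_underlying hD h) (fun _ _ h => rev_asymm hD h)

lemma exists_isMaxChain (P : Type u) [PartialOrder P] : ∃ M : Set P, IsMaxChain (· ≤ ·) M :=
  ⟨_, maxChain_spec⟩

/-- If the underlying graph is a forest, then `AR_D` is a supersolvable (Boolean) lattice. -/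
theorem supersolvable_of_forest {D : Digraph V} (hD : Acyclic D)
    (hG : (underlying D).IsAcyclic) : IsSupersolvableLattice (AR D) := by
  let L : Lattice (AR D) :=
    { (inferInstance : PartialOrder (AR D)) with
      sup := fun a b => ⟨a.1 ∪ b.1, Set.union_subset a.2.1 b.2.1, all_acyclic hD hG _⟩
      inf := fun a b => ⟨a.1 ∩ b.1, fun x hx => a.2.1 hx.1, all_acyclic hD hG _⟩
      le_sup_left := fun a b => (Set.subset_union_left : a.1 ⊆ a.1 ∪ b.1)
      le_sup_right := fun a b => (Set.subset_union_right : b.1 ⊆ a.1 ∪ b.1)
      sup_le := fun a b c h1 h2 => (Set.union_subset h1 h2 : a.1 ∪ b.1 ⊆ c.1)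
      inf_le_left := fun a b => (Set.inter_subset_left : a.1 ∩ b.1 ⊆ a.1)
      inf_le_right := fun a b => (Set.inter_subset_right : a.1 ∩ b.1 ⊆ b.1)
      le_inf := fun a b c h1 h2 => (Set.subset_inter h1 h2 : a.1 ⊆ b.1 ∩ c.1) }
  refine ⟨L, rfl, ?_⟩
  obtain ⟨M, hM⟩ := exists_isMaxChain (AR D)
  refine ⟨M, hM, ?_⟩
  intro K _ a _ b _ c _
  apply Subtype.ext
  exact Set.inter_union_distrib_left a.1 b.1 c.1

/-- If `AR_D` is a supersolvable lattice, the underlying graph is a forest. -/
theorem forest_of_supersolvable [Finite V] {D : Digraph V} (hD : Acyclic D)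
    (h : IsSupersolvableLattice (AR D)) : (underlying D).IsAcyclic := by
  by_contra hcyc
  obtain ⟨L, hL, hs⟩ := h
  have hle : ∀ a b : AR D, L.le a b ↔ a.1 ⊆ b.1 := by
    intro a b
    have : L.toPartialOrder.toLE = (inferInstance : PartialOrder (AR D)).toLE := by rw [hL]
    show L.toPartialOrder.toLE.le a b ↔ _
    rw [this]
    rfl
  exact @not_supersolvable_of_cycle V _ D hD hcyc (AR D) _ L (fun a => a.1) hle (fun a => a.2)
    (fun S h1 h2 => ⟨⟨S, h1, h2⟩, rfl⟩) hs

/-- In a forest, every finite set of vertices with at least two elements contains a vertex with at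
most one neighbour in the set. -/
lemma exists_leaf {G : SimpleGraph V} (hG : G.IsAcyclic) {X : Set V} (hX : X.Finite)
    (hne : X.Nonempty) : ∃ v ∈ X, ∀ a ∈ X, ∀ b ∈ X, G.Adj v a → G.Adj v b → a = b := by
  classical
  -- paths inside `X`
  let Q : ℕ → Prop := fun n => ∃ p : ℕ → V, (∀ i ≤ n, p i ∈ X) ∧
    (∀ i ≤ n, ∀ j ≤ n, p i = p j → i = j) ∧ ∀ i < n, G.Adj (p i) (p (i + 1))
  have hbound : ∀ n, Q n → n < X.ncard := by
    rintro n ⟨p, h1, h2, _⟩
    have hcard : (p '' (Finset.range (n + 1) : Set ℕ)).ncard = n + 1 := by
      rw [Set.InjOn.ncard_image]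
      · rw [Set.ncard_coe_finset, Finset.card_range]
      · intro i hi j hj hij
        rw [Finset.coe_range, Set.mem_Iio] at hi hj
        exact h2 i (by omega) j (by omega) hij
    have hsub : p '' (Finset.range (n + 1) : Set ℕ) ⊆ X := by
      rintro _ ⟨i, hi, rfl⟩
      rw [Finset.coe_range, Set.mem_Iio] at hi
      exact h1 i (by omega)
    have := Set.ncard_le_ncard hsub hX
    omega
  obtain ⟨x0, hx0⟩ := hne
  have hQ0 : Q 0 := ⟨fun _ => x0, fun _ _ => hx0, fun i hi j hj _ => by omega,
    fun i hi => by omega⟩
  set N := Nat.findGreatest Q X.ncard with hN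
  have hQN : Q N := Nat.findGreatest_spec (Nat.zero_le _) hQ0
  have hmax : ¬ Q (N + 1) := by
    intro h
    have h1 := hbound _ h
    have h2 := Nat.le_findGreatest (le_of_lt h1) h
    omega
  obtain ⟨p, hp1, hp2, hp3⟩ := hQN
  refine ⟨p N, hp1 N le_rfl, ?_⟩
  -- every neighbour of the end is the previous vertex
  have key : ∀ a ∈ X, G.Adj (p N) a → 0 < N ∧ a = p (N - 1) := by
    intro a ha hadj
    by_cases hin : ∃ i ≤ N, p i = a
    · obtain ⟨i, hi, rfl⟩ := hin
      have hiN : i ≠ N := by
        rintro rfl
        exact absurd rfl hadj.ne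
      refine ⟨by omega, ?_⟩
      by_contra hcon
      have hi2 : 2 ≤ N - i := by
        rcases Nat.lt_or_ge (N - i) 2 with h | h
        · exact absurd (show p i = p (N - 1) by congr 1; omega) hcon
        · exact h
      apply not_isAcyclic_of_cyc (G := G) (n := N - i) (p := fun t => p (i + t)) _ hG
      refine ⟨hi2, ?_, ?_, ?_⟩
      · intro a ha b hb hab
        have := hp2 (i + a) (by omega) (i + b) (by omega) hab
        omega
      · intro a ha
        exact hp3 (i + a) (by omega)
      · simp only [Nat.add_zero]
        have h1 : i + (N - i) = N := by omega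
        rw [h1]
        exact hadj
    · exfalso
      push Not at hin
      apply hmax
      refine ⟨fun i => if i ≤ N then p i else a, ?_, ?_, ?_⟩
      · intro i hi
        by_cases h : i ≤ N
        · simp only [h, if_true]
          exact hp1 i h
        · simp only [h, if_false]
          exact ha
      · intro i hi j hj hij
        by_cases h : i ≤ N <;> by_cases h' : j ≤ N
        · simp only [h, h', if_true] at hij
          exact hp2 i h j h' hij
        · simp only [h, h', if_true, if_false] at hij
          exact absurd hij (hin i h)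
        · simp only [h, h', if_true, if_false] at hij
          exact absurd hij.symm (hin j h')
        · omega
      · intro i hi
        by_cases h : i < N
        · have h1 : i ≤ N := h.le
          have h2 : i + 1 ≤ N := h
          simp only [h1, h2, if_true]
          exact hp3 i h
        · have h1 : i = N := by omega
          subst h1
          have h2 : ¬ (N + 1 ≤ N) := by omega
          simp only [le_refl, if_true, h2, if_false]
          exact hadj
  intro a ha b hb h1 h2
  rw [(key a ha h1).2, (key b hb h2).2]

/-- An acyclic digraph whose underlying graph is a forest is peo-consistent. -/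
theorem peo_of_forest [Finite V] {D : Digraph V} (hD : Acyclic D)
    (hG : (underlying D).IsAcyclic) : PeoConsistent D := by
  have key : ∀ n, ∀ X : Set V, X.ncard = n → PeoOn D X := by
    intro n
    induction n with
    | zero =>
      intro X hX
      rw [Set.ncard_eq_zero] at hX
      subst hX
      exact PeoOn.small _ Set.subsingleton_empty
    | succ n ih =>
      intro X hX
      have hne : X.Nonempty := by
        rw [← Set.ncard_pos]
        omega
      obtain ⟨v, hv, hv'⟩ := exists_leaf hG (Set.toFinite X) hne
      refine PeoOn.step X v hv ?_ ?_ (ih _ ?_)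
      · by_cases h : IsSourceIn D X v
        · exact Or.inl h
        · right
          unfold IsSourceIn at h
          push Not at h
          obtain ⟨a, ha, hav⟩ := h
          intro u hu hvu
          have := hv' a ha u hu (adj_underlying hD hav).symm (adj_underlying hD hvu)
          subst this
          exact acyclic_asymm hD hav hvu
      · intro a ha b hb hab h1 h2
        exact absurd (hv' a ha b hb h1 h2) hab
      · rw [Set.ncard_sdiff_singleton_of_mem hv, hX]
        rfl
  exact key _ _ rfl

/-! ### The transitive tournament -/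

lemma transTournament_acyclic (n : ℕ) : Acyclic (transTournament n) := by
  have key : ∀ a b, TransGen (transTournament n).Adj a b → a < b := by
    intro a b h
    induction h with
    | single h => exact h
    | tail _ h ih => exact lt_trans ih h
  intro v hv
  exact lt_irrefl _ (key v v hv)

lemma transTournament_peo (n : ℕ) : PeoConsistent (transTournament n) := by
  have key : ∀ m, ∀ X : Set (Fin n), X.ncard = m → PeoOn (transTournament n) X := by
    intro m
    induction m with
    | zero =>
      intro X hX
      rw [Set.ncard_eq_zero] at hX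
      subst hX
      exact PeoOn.small _ Set.subsingleton_empty
    | succ m ih =>
      intro X hX
      have hne : X.Nonempty := by
        rw [← Set.ncard_pos]
        omega
      obtain ⟨v, hv, hv'⟩ := Set.exists_max_image X id (Set.toFinite X) hne
      refine PeoOn.step X v hv (Or.inr ?_) ?_ (ih _ ?_)
      · intro u hu hvu
        exact absurd hvu (not_lt.mpr (hv' u hu))
      · intro a _ b _ hab _ _
        rw [underlying, SimpleGraph.fromRel_adj]
        exact ⟨hab, lt_or_gt_of_ne hab⟩
      · rw [Set.ncard_sdiff_singleton_of_mem hv, hX]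
        rfl
  exact key _ _ rfl

lemma transTournament_not_forest {n : ℕ} (hn : 3 ≤ n) :
    ¬ (underlying (transTournament n)).IsAcyclic := by
  have h0 : 0 < n := by omega
  apply not_isAcyclic_of_cyc (n := 2)
    (p := fun i => if h : i < n then (⟨i, h⟩ : Fin n) else ⟨0, h0⟩)
  have hadj : ∀ a b : Fin n, a ≠ b → (underlying (transTournament n)).Adj a b := by
    intro a b hab
    rw [underlying, SimpleGraph.fromRel_adj]
    exact ⟨hab, lt_or_gt_of_ne hab⟩
  refine ⟨le_rfl, ?_, ?_, ?_⟩
  · intro i hi j hj hij
    have h1 : i < n := by omega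
    have h2 : j < n := by omega
    simp only [h1, h2, dif_pos] at hij
    simpa using hij
  · intro i hi
    have h1 : i < n := by omega
    have h2 : i + 1 < n := by omega
    simp only [h1, h2, dif_pos]
    apply hadj
    simp
  · have h1 : 2 < n := by omega
    simp only [h1, h0, dif_pos]
    apply hadj
    simp

end Q53.AcyclicReorient
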