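import Pool.Agent.Q53.AcyclicReorient.Cycle

namespace Q53.AcyclicReorient

universe u

variable {V : Type u}

open Relation

lemma underlying_adj {D : Digraph V} {a b : V} (h : (underlying D).Adj a b) :
    D.Adj a b ∨ D.Adj b a := by
  rw [underlying, SimpleGraph.fromRel_adj] at h
  exact h.2

lemma adj_underlying {D : Digraph V} (hD : Acyclic D) {a b : V} (h : D.Adj a b) :
    (underlying D).Adj a b := by
  rw [underlying, SimpleGraph.fromRel_adj]
  exact ⟨acyclic_ne hD h, Or.inl h⟩

lemma transGen_of_steps {R : V → V → Prop} {p : ℕ → V} {n : ℕ} (h : ∀ i < n, R (p i) (p (i + 1)))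
    (hn : 0 < n) : TransGen R (p 0) (p n) := by
  induction n with
  | zero => omega
  | succ n ih =>
    rcases Nat.eq_zero_or_pos n with h0 | h0
    · subst h0
      exact TransGen.single (h 0 (by omega))
    · exact (ih (fun i hi => h i (by omega)) h0).tail (h n (by omega))

theorem not_supersolvable_of_cycle [Finite V] {D : Digraph V} (hD : Acyclic D)
    (hcyc : ¬ (underlying D).IsAcyclic) {P : Type u} [Finite P] [Lattice P]
    (φ : P → Set (V × V)) (hφ : ∀ a b, a ≤ b ↔ φ a ⊆ φ b)
    (hmem1 : ∀ a, φ a ⊆ arcs D ∧ Acyclic (rev D (φ a)))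
    (hmem2 : ∀ S, S ⊆ arcs D → Acyclic (rev D S) → ∃ a, φ a = S) : ¬ Supersolvable P := by
  classical
  obtain ⟨n, p, hp, hch⟩ := exists_induced_cyc hcyc
  have hn2 := hp.two_le
  set X : Set V := {v | ∃ i ≤ n, p i = v} with hX
  have hpX : ∀ i ≤ n, p i ∈ X := fun i hi => ⟨i, hi, rfl⟩
  set A : Set (V × V) := {e | e ∈ arcs D ∧ e.1 ∈ X ∧ e.2 ∈ X} with hA
  set O : Set (V × V) := {e | e ∈ arcs D ∧ e.1 ∉ X ∧ e.2 ∈ X} with hO
  set F : Set (V × V) := {e | e ∈ arcs D ∧
    ((∃ i < n, e.1 = p i ∧ e.2 = p (i + 1)) ∨ (e.1 = p n ∧ e.2 = p 0))} with hF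
  set B : Set (V × V) := {e | e ∈ arcs D ∧
    ((∃ i < n, e.1 = p (i + 1) ∧ e.2 = p i) ∨ (e.1 = p 0 ∧ e.2 = p n))} with hB
  have hFA : F ⊆ A := by
    rintro ⟨a, b⟩ ⟨h, ⟨i, hi, h1, h2⟩ | ⟨h1, h2⟩⟩
    · exact ⟨h, ⟨i, by omega, h1.symm⟩, ⟨i + 1, by omega, h2.symm⟩⟩
    · exact ⟨h, ⟨n, le_rfl, h1.symm⟩, ⟨0, by omega, h2.symm⟩⟩
  have hBA : B ⊆ A := by
    rintro ⟨a, b⟩ ⟨h, ⟨i, hi, h1, h2⟩ | ⟨h1, h2⟩⟩
    · exact ⟨h, ⟨i + 1, by omega, h1.symm⟩, ⟨i, by omega, h2.symm⟩⟩
    · exact ⟨h, ⟨0, by omega, h1.symm⟩, ⟨n, le_rfl, h2.symm⟩⟩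
  have hAFB : A = F ∪ B := by
    apply Set.Subset.antisymm
    · rintro ⟨a, b⟩ ⟨h, ⟨i, hi, h1⟩, ⟨j, hj, h2⟩⟩
      simp only at h1 h2
      subst h1 h2
      have hadj : (underlying D).Adj (p i) (p j) := adj_underlying hD h
      rcases lt_trichotomy i j with hij | hij | hij
      · rcases hch i j hij hj hadj with h1 | ⟨h1, h2⟩
        · exact Or.inl ⟨h, Or.inl ⟨i, by omega, rfl, by rw [h1]⟩⟩
        · exact Or.inr ⟨h, Or.inr ⟨by simp only [h1], by simp only [h2]⟩⟩
      · subst hij
        exact absurd rfl hadj.ne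
      · rcases hch j i hij hi hadj.symm with h1 | ⟨h1, h2⟩
        · exact Or.inr ⟨h, Or.inl ⟨j, by omega, by simp only [h1], rfl⟩⟩
        · exact Or.inl ⟨h, Or.inr ⟨by simp only [h2], by simp only [h1]⟩⟩
    · exact Set.union_subset hFA hBA
  have hdis : ∀ x ∈ F, x ∉ B := by
    rintro ⟨a, b⟩ ⟨_, h1⟩ ⟨_, h2⟩
    rcases h1 with ⟨i, hi, h1, h1'⟩ | ⟨h1, h1'⟩ <;> rcases h2 with ⟨j, hj, h2, h2'⟩ | ⟨h2, h2'⟩
    · have h3 := hp.inj _ (by omega) _ (by omega) (h1.symm.trans h2)
      have h4 := hp.inj _ (by omega) _ (by omega) (h1'.symm.trans h2')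
      omega
    · have h3 := hp.inj _ (by omega) _ (by omega) (h1.symm.trans h2)
      have h4 := hp.inj _ (by omega) _ (by omega) (h1'.symm.trans h2')
      omega
    · have h3 := hp.inj _ (by omega) _ (by omega) (h1.symm.trans h2)
      have h4 := hp.inj _ (by omega) _ (by omega) (h1'.symm.trans h2')
      omega
    · have h3 := hp.inj _ (by omega) _ (by omega) (h1.symm.trans h2)
      omega
  -- an edge of the cycle, forwards
  have hedge : ∀ i < n, ((p i, p (i + 1)) ∈ F ∧ D.Adj (p i) (p (i + 1))) ∨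
      ((p (i + 1), p i) ∈ B ∧ D.Adj (p (i + 1)) (p i)) := by
    intro i hi
    rcases underlying_adj (hp.adj i hi) with h | h
    · exact Or.inl ⟨⟨h, Or.inl ⟨i, hi, rfl, rfl⟩⟩, h⟩
    · exact Or.inr ⟨⟨h, Or.inl ⟨i, hi, rfl, rfl⟩⟩, h⟩
  have hclose : ((p n, p 0) ∈ F ∧ D.Adj (p n) (p 0)) ∨ ((p 0, p n) ∈ B ∧ D.Adj (p 0) (p n)) := by
    rcases underlying_adj hp.close with h | h
    · exact Or.inl ⟨⟨h, Or.inr ⟨rfl, rfl⟩⟩, h⟩
    · exact Or.inr ⟨⟨h, Or.inr ⟨rfl, rfl⟩⟩, h⟩
  -- if the trace of `S` is `B`, the cycle is directed forwards; if it is `F`, backwards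
  have hnB : ∀ S, S ⊆ arcs D → Acyclic (rev D S) → S ∩ A ≠ B := by
    intro S _ hS hSB
    have hF' : ∀ e ∈ F, e ∉ S := fun e he hes => hdis e he (by rw [← hSB]; exact ⟨hes, hFA he⟩)
    have hB' : ∀ e ∈ B, e ∈ S := fun e he => by
      rw [← hSB] at he
      exact he.1
    have hstep : ∀ i < n, (rev D S).Adj (p i) (p (i + 1)) := by
      intro i hi
      rcases hedge i hi with ⟨h, h'⟩ | ⟨h, h'⟩
      · exact Or.inl ⟨h', hF' _ h⟩
      · exact Or.inr ⟨h', hB' _ h⟩
    have hlast : (rev D S).Adj (p n) (p 0) := by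
      rcases hclose with ⟨h, h'⟩ | ⟨h, h'⟩
      · exact Or.inl ⟨h', hF' _ h⟩
      · exact Or.inr ⟨h', hB' _ h⟩
    exact hS (p 0) ((transGen_of_steps hstep (by omega)).tail hlast)
  have hnF : ∀ S, S ⊆ arcs D → Acyclic (rev D S) → S ∩ A ≠ F := by
    intro S _ hS hSF
    have hB' : ∀ e ∈ B, e ∉ S := fun e he hes => hdis e (by rw [← hSF]; exact ⟨hes, hBA he⟩) he
    have hF' : ∀ e ∈ F, e ∈ S := fun e he => by
      rw [← hSF] at he
      exact he.1
    have hstep : ∀ i < n, Function.swap (rev D S).Adj (p i) (p (i + 1)) := by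
      intro i hi
      rcases hedge i hi with ⟨h, h'⟩ | ⟨h, h'⟩
      · exact Or.inr ⟨h', hF' _ h⟩
      · exact Or.inl ⟨h', hB' _ h⟩
    have hlast : Function.swap (rev D S).Adj (p n) (p 0) := by
      rcases hclose with ⟨h, h'⟩ | ⟨h, h'⟩
      · exact Or.inr ⟨h', hF' _ h⟩
      · exact Or.inl ⟨h', hB' _ h⟩
    have h1 := (transGen_of_steps hstep (by omega)).tail hlast
    rw [transGen_swap] at h1
    exact hS (p 0) h1
  -- all other traces are possible
  have hmem : ∀ R ⊆ A, R ≠ F → R ≠ B → O ∪ R ⊆ arcs D ∧ Acyclic (rev D (O ∪ R)) := by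
    intro R hR hRF hRB
    refine ⟨?_, ?_⟩
    · rintro e (he | he)
      · exact he.1
      · exact (hR he).1
    have hOR : ∀ e ∈ A, (e ∈ O ∪ R ↔ e ∈ R) := by
      intro e he
      constructor
      · rintro (h | h)
        · exact absurd he.2.1 h.2.1
        · exact h
      · exact Or.inr
    set D' := rev D (O ∪ R) with hD'
    -- orientation of the edges of the cycle
    have hdir : ∀ e ∈ A, (e ∉ R → D'.Adj e.1 e.2) ∧ (e ∈ R → D'.Adj e.2 e.1) ∧
        (D'.Adj e.1 e.2 → e ∉ R) ∧ (D'.Adj e.2 e.1 → e ∈ R) := by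
      rintro ⟨a, b⟩ he
      have hab : D.Adj a b := he.1
      refine ⟨?_, ?_, ?_, ?_⟩
      · intro h
        exact Or.inl ⟨hab, fun hh => h ((hOR _ he).mp hh)⟩
      · intro h
        exact Or.inr ⟨hab, (hOR _ he).mpr h⟩
      · rintro (⟨_, h⟩ | ⟨h, _⟩)
        · exact fun hh => h ((hOR _ he).mpr hh)
        · exact absurd h (acyclic_asymm hD hab)
      · rintro (⟨h, _⟩ | ⟨_, h⟩)
        · exact absurd h (acyclic_asymm hD hab)
        · exact (hOR _ he).mp h
    set s : ℕ → Prop := fun i => D'.Adj (p i) (p (i + 1)) with hs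
    have hnots : ∀ i < n, ¬ s i → D'.Adj (p (i + 1)) (p i) := by
      intro i hi hsi
      rcases hedge i hi with ⟨h, _⟩ | ⟨h, _⟩
      · obtain ⟨h1, h2, h3, h4⟩ := hdir _ (hFA h)
        by_contra hcon
        exact hsi (h1 (fun hh => hcon (h2 hh)))
      · obtain ⟨h1, h2, h3, h4⟩ := hdir _ (hBA h)
        by_contra hcon
        exact hsi (h2 (by
          by_contra hh
          exact hcon (h1 hh)))
    -- potential on the indices
    have hpot : ∃ H : ℕ → ℤ, (∀ i < n, s i → H i < H (i + 1)) ∧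
        (∀ i < n, D'.Adj (p (i + 1)) (p i) → H (i + 1) < H i) ∧
        (D'.Adj (p n) (p 0) → H n < H 0) ∧ (D'.Adj (p 0) (p n) → H 0 < H n) := by
      have hasym : ∀ a b : V, D'.Adj a b → ¬ D'.Adj b a := by
        rintro a b (⟨h1, h2⟩ | ⟨h1, h2⟩) (⟨h3, h4⟩ | ⟨h3, h4⟩)
        · exact acyclic_asymm hD h1 h3
        · exact h2 h4
        · exact h4 h2
        · exact acyclic_asymm hD h1 h3
      by_cases hlast : D'.Adj (p n) (p 0)
      · -- some step is backwards
        have hex : ∃ i < n, ¬ s i := by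
          by_contra hcon
          push Not at hcon
          apply hRB
          ext e
          constructor
          · intro he
            have heA := hR he
            have heA' := heA
            rw [hAFB] at heA'
            rcases heA' with heF | heB
            · exfalso
              obtain ⟨_, ⟨i, hi, h1, h2⟩ | ⟨h1, h2⟩⟩ := heF
              · have h5 := hcon i hi
                simp only [hs] at h5
                rw [← h1, ← h2] at h5
                exact (hdir _ heA).2.2.1 h5 he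
              · rw [← h1, ← h2] at hlast
                exact (hdir _ heA).2.2.1 hlast he
            · exact heB
          · intro heB
            have heA := hBA heB
            obtain ⟨_, ⟨i, hi, h1, h2⟩ | ⟨h1, h2⟩⟩ := heB
            · have h5 := hcon i hi
              simp only [hs] at h5
              rw [← h1, ← h2] at h5
              exact (hdir _ heA).2.2.2 h5
            · rw [← h1, ← h2] at hlast
              exact (hdir _ heA).2.2.2 hlast
        obtain ⟨H, h1, h2, h3⟩ := exists_potential n s hex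
        exact ⟨H, h1, fun i hi hi' => h2 i hi (fun hh => hasym _ _ hh hi'), fun _ => h3,
          fun h => absurd h (hasym _ _ hlast)⟩
      · have hlast' : D'.Adj (p 0) (p n) := by
          rcases hclose with ⟨h, _⟩ | ⟨h, _⟩
          · obtain ⟨h1, h2, h3, h4⟩ := hdir _ (hFA h)
            by_contra hcon
            exact hlast (h1 (fun hh => hcon (h2 hh)))
          · obtain ⟨h1, h2, h3, h4⟩ := hdir _ (hBA h)
            by_contra hcon
            exact hlast (h2 (by
              by_contra hh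
              exact hcon (h1 hh)))
        have hex : ∃ i < n, ¬ ¬ s i := by
          by_contra hcon
          push Not at hcon
          apply hRF
          ext e
          constructor
          · intro he
            have heA := hR he
            have heA' := heA
            rw [hAFB] at heA'
            rcases heA' with heF | heB
            · exact heF
            · exfalso
              obtain ⟨_, ⟨i, hi, h1, h2⟩ | ⟨h1, h2⟩⟩ := heB
              · have h5 := hnots i hi (hcon i hi)
                rw [← h1, ← h2] at h5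
                exact (hdir _ heA).2.2.1 h5 he
              · rw [← h1, ← h2] at hlast'
                exact (hdir _ heA).2.2.1 hlast' he
          · intro heF
            have heA := hFA heF
            obtain ⟨_, ⟨i, hi, h1, h2⟩ | ⟨h1, h2⟩⟩ := heF
            · have h5 := hnots i hi (hcon i hi)
              rw [← h1, ← h2] at h5
              exact (hdir _ heA).2.2.2 h5
            · rw [← h1, ← h2] at hlast'
              exact (hdir _ heA).2.2.2 hlast'
        obtain ⟨H, h1, h2, h3⟩ := exists_potential n (fun i => ¬ s i) hex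
        refine ⟨fun i => - H i, ?_, ?_, ?_, ?_⟩
        · intro i hi hsi
          have := h2 i hi (not_not.mpr hsi)
          simp only
          linarith
        · intro i hi hsi
          have := h1 i hi (fun hh => hasym _ _ hh hsi)
          simp only
          linarith
        · intro h
          exact absurd h hlast
        · intro _
          simp only
          linarith
    obtain ⟨H, hH1, hH2, hH3, hH4⟩ := hpot
    -- the index of a vertex of the cycle
    have hidx : ∃ idx : V → ℕ, ∀ i ≤ n, idx (p i) = i := by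
      refine ⟨fun v => if h : ∃ i ≤ n, p i = v then h.choose else 0, ?_⟩
      intro i hi
      have h : ∃ j ≤ n, p j = p i := ⟨i, hi, rfl⟩
      simp only [dif_pos h]
      exact hp.inj _ h.choose_spec.1 _ hi h.choose_spec.2
    obtain ⟨idx, hidx⟩ := hidx
    apply acyclic_glue X D.Adj hD (fun v => H (idx v))
    · rintro u v huv hv
      by_contra hu
      rcases huv with ⟨h1, h2⟩ | ⟨h1, h2⟩
      · exact h2 (Or.inl ⟨h1, hu, hv⟩)
      · rcases h2 with h2 | h2
        · exact h2.2.1 hv
        · exact hu (hR h2).2.2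
    · rintro u v (⟨h1, h2⟩ | ⟨h1, h2⟩) hu
      · exact h1
      · rcases h2 with h2 | h2
        · exact absurd h2.2.2 hu
        · exact absurd (hR h2).2.2 hu
    · rintro u v huv ⟨i, hi, rfl⟩ ⟨j, hj, rfl⟩
      simp only [hidx i hi, hidx j hj]
      have hadj : (underlying D).Adj (p i) (p j) := by
        rcases huv with ⟨h1, _⟩ | ⟨h1, _⟩
        · exact adj_underlying hD h1
        · exact (adj_underlying hD h1).symm
      rcases lt_trichotomy i j with hij | hij | hij
      · rcases hch i j hij hj hadj with h1 | ⟨h1, h2⟩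
        · subst h1
          exact hH1 i (by omega) huv
        · subst h1 h2
          exact hH4 huv
      · subst hij
        exact absurd rfl hadj.ne
      · rcases hch j i hij hi hadj.symm with h1 | ⟨h1, h2⟩
        · subst h1
          exact hH2 j (by omega) huv
        · subst h1 h2
          exact hH3 huv
  -- apply the lattice theoretic lemma
  apply core φ hφ {S | S ⊆ arcs D ∧ Acyclic (rev D S)} hmem1 (fun S hS => hmem2 S hS.1 hS.2)
    ⟨Set.empty_subset _, empty_mem hD⟩ (arcs D) ⟨subset_rfl, full_mem hD⟩ (fun S hS => hS.1) _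
    A F B O (fun e he => he.1) hAFB hdis (fun e he he' => he.2.1 he'.2.1)
    (fun S hS => hnF S hS.1 hS.2) (fun S hS => hnB S hS.1 hS.2) hmem
  intro S hS T hT hST hne
  obtain ⟨e, he1, he2, he3⟩ := exists_add_arc hD hST hne hT.1 hS.2 hT.2
  refine ⟨e, he1, he2, ?_, he3⟩
  rintro x (rfl | hx)
  · exact hT.1 he1
  · exact hS.1 hx

end Q53.AcyclicReorient
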