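import Pool.Agent.Q53.AcyclicReorient.Forest

namespace Q53.AcyclicReorient

open Relation

lemma acyclic_of_rank {V : Type} {D : Digraph V} (r : V → ℕ)
    (h : ∀ a b, D.Adj a b → r a < r b) : Acyclic D := by
  have key : ∀ a b, TransGen D.Adj a b → r a < r b := by
    intro a b hab
    induction hab with
    | single h' => exact h _ _ h'
    | tail _ h' ih => exact lt_trans ih (h _ _ h')
  intro v hv
  exact lt_irrefl _ (key v v hv)

/-- The sets of arcs of the transitive triangle with an acyclic reorientation. -/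
lemma triangle_iff (S : Set (Fin 3 × Fin 3)) :
    Acyclic (rev (transTournament 3) S) ↔
      (((0 : Fin 3), (2 : Fin 3)) ∈ S → (((0 : Fin 3), (1 : Fin 3)) ∈ S ∨
        ((1 : Fin 3), (2 : Fin 3)) ∈ S)) ∧
      (((0 : Fin 3), (1 : Fin 3)) ∈ S → ((1 : Fin 3), (2 : Fin 3)) ∈ S →
        ((0 : Fin 3), (2 : Fin 3)) ∈ S) := by
  constructor
  · intro h
    constructor
    · intro h02
      by_contra hcon
      push Not at hcon
      have h1 : (rev (transTournament 3) S).Adj 0 1 :=
        Or.inl ⟨show (0 : Fin 3) < 1 by decide, hcon.1⟩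
      have h2 : (rev (transTournament 3) S).Adj 1 2 :=
        Or.inl ⟨show (1 : Fin 3) < 2 by decide, hcon.2⟩
      have h3 : (rev (transTournament 3) S).Adj 2 0 :=
        Or.inr ⟨show (0 : Fin 3) < 2 by decide, h02⟩
      exact h 0 (((TransGen.single h1).tail h2).tail h3)
    · intro h01 h12
      by_contra h02
      have h1 : (rev (transTournament 3) S).Adj 1 0 :=
        Or.inr ⟨show (0 : Fin 3) < 1 by decide, h01⟩
      have h2 : (rev (transTournament 3) S).Adj 2 1 :=
        Or.inr ⟨show (1 : Fin 3) < 2 by decide, h12⟩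
      have h3 : (rev (transTournament 3) S).Adj 0 2 :=
        Or.inl ⟨show (0 : Fin 3) < 2 by decide, h02⟩
      exact h 0 (((TransGen.single h3).tail h2).tail h1)
  · rintro ⟨hA, hB⟩
    have main : ∀ r : Fin 3 → ℕ,
        (((0 : Fin 3), (1 : Fin 3)) ∉ S → r 0 < r 1) → (((0 : Fin 3), (1 : Fin 3)) ∈ S → r 1 < r 0) →
        (((1 : Fin 3), (2 : Fin 3)) ∉ S → r 1 < r 2) → (((1 : Fin 3), (2 : Fin 3)) ∈ S → r 2 < r 1) →
        (((0 : Fin 3), (2 : Fin 3)) ∉ S → r 0 < r 2) → (((0 : Fin 3), (2 : Fin 3)) ∈ S → r 2 < r 0) →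
        Acyclic (rev (transTournament 3) S) := by
      intro r h1 h2 h3 h4 h5 h6
      apply acyclic_of_rank r
      rintro a b (⟨hab, hS⟩ | ⟨hab, hS⟩)
      · have hab' : a < b := hab
        fin_cases a <;> fin_cases b
        · exact absurd hab' (by decide)
        · exact h1 hS
        · exact h5 hS
        · exact absurd hab' (by decide)
        · exact absurd hab' (by decide)
        · exact h3 hS
        · exact absurd hab' (by decide)
        · exact absurd hab' (by decide)
        · exact absurd hab' (by decide)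
      · have hab' : b < a := hab
        fin_cases a <;> fin_cases b
        · exact absurd hab' (by decide)
        · exact absurd hab' (by decide)
        · exact absurd hab' (by decide)
        · exact h2 hS
        · exact absurd hab' (by decide)
        · exact absurd hab' (by decide)
        · exact h6 hS
        · exact h4 hS
        · exact absurd hab' (by decide)
    by_cases h1 : ((0 : Fin 3), (1 : Fin 3)) ∈ S <;> by_cases h2 : ((1 : Fin 3), (2 : Fin 3)) ∈ S <;>
      by_cases h3 : ((0 : Fin 3), (2 : Fin 3)) ∈ S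
    · exact main ![2, 1, 0] (fun h => absurd h1 h) (fun _ => by decide) (fun h => absurd h2 h)
        (fun _ => by decide) (fun h => absurd h3 h) (fun _ => by decide)
    · exact absurd (hB h1 h2) h3
    · exact main ![2, 0, 1] (fun h => absurd h1 h) (fun _ => by decide) (fun _ => by decide)
        (fun h => absurd h h2) (fun h => absurd h3 h) (fun _ => by decide)
    · exact main ![1, 0, 2] (fun h => absurd h1 h) (fun _ => by decide) (fun _ => by decide)
        (fun h => absurd h h2) (fun _ => by decide) (fun h => absurd h h3)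
    · exact main ![1, 2, 0] (fun _ => by decide) (fun h => absurd h h1) (fun h => absurd h2 h)
        (fun _ => by decide) (fun h => absurd h3 h) (fun _ => by decide)
    · exact main ![0, 2, 1] (fun _ => by decide) (fun h => absurd h h1) (fun h => absurd h2 h)
        (fun _ => by decide) (fun _ => by decide) (fun h => absurd h h3)
    · exact absurd (hA h3) (by rintro (h | h); exacts [h1 h, h2 h])
    · exact main ![0, 1, 2] (fun _ => by decide) (fun h => absurd h h1) (fun _ => by decide)
        (fun h => absurd h h2) (fun _ => by decide) (fun h => absurd h h3)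

/-- The acyclic reorientation poset of the transitive triangle is a lattice (a hexagon). -/
theorem triangle_lattice : IsLatticeOrder (AR (transTournament 3)) := by
  rintro ⟨S, hS1, hS2⟩ ⟨T, hT1, hT2⟩
  have hS := (triangle_iff S).mp hS2
  have hT := (triangle_iff T).mp hT2
  have hmem : ((0 : Fin 3), (2 : Fin 3)) ∈ arcs (transTournament 3) :=
    show (0 : Fin 3) < 2 by decide
  constructor
  · set J : Set (Fin 3 × Fin 3) := {x | x ∈ S ∪ T ∨ (x = (0, 2) ∧ (0, 1) ∈ S ∪ T ∧ (1, 2) ∈ S ∪ T)}
      with hJ
    have hJ1 : J ⊆ arcs (transTournament 3) := by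
      rintro x ((h | h) | ⟨rfl, _⟩)
      · exact hS1 h
      · exact hT1 h
      · exact hmem
    have hJ2 : Acyclic (rev (transTournament 3) J) := by
      rw [triangle_iff]
      constructor
      · rintro ((h | h) | ⟨_, h, _⟩)
        · rcases hS.1 h with h | h
          · exact Or.inl (Or.inl (Or.inl h))
          · exact Or.inr (Or.inl (Or.inl h))
        · rcases hT.1 h with h | h
          · exact Or.inl (Or.inl (Or.inr h))
          · exact Or.inr (Or.inl (Or.inr h))
        · exact Or.inl (Or.inl h)
      · rintro (h | ⟨h, _⟩) (h' | ⟨h', _⟩)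
        · exact Or.inr ⟨rfl, h, h'⟩
        · exact absurd h' (by decide)
        · exact absurd h (by decide)
        · exact absurd h (by decide)
    refine ⟨⟨J, hJ1, hJ2⟩, ?_, ?_⟩
    · rintro x (rfl | rfl)
      · exact fun y hy => Or.inl (Or.inl hy)
      · exact fun y hy => Or.inl (Or.inr hy)
    · rintro ⟨U, hU1, hU2⟩ hU
      have h1 : S ⊆ U := hU (Or.inl rfl)
      have h2 : T ⊆ U := hU (Or.inr rfl)
      have hU3 := (triangle_iff U).mp hU2
      show J ⊆ U
      rintro x (h | ⟨rfl, h, h'⟩)
      · exact Set.union_subset h1 h2 h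
      · exact hU3.2 (Set.union_subset h1 h2 h) (Set.union_subset h1 h2 h')
  · set J : Set (Fin 3 × Fin 3) := {x | x ∈ S ∩ T ∧ (x = (0, 2) → (0, 1) ∈ S ∩ T ∨ (1, 2) ∈ S ∩ T)}
      with hJ
    have hJ1 : J ⊆ arcs (transTournament 3) := fun x hx => hS1 hx.1.1
    have hJ2 : Acyclic (rev (transTournament 3) J) := by
      rw [triangle_iff]
      constructor
      · rintro ⟨_, h⟩
        rcases h rfl with h | h
        · exact Or.inl ⟨h, fun hh => absurd hh (by decide)⟩
        · exact Or.inr ⟨h, fun hh => absurd hh (by decide)⟩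
      · rintro ⟨h, _⟩ ⟨h', _⟩
        exact ⟨⟨hS.2 h.1 h'.1, hT.2 h.2 h'.2⟩, fun _ => Or.inl h⟩
    refine ⟨⟨J, hJ1, hJ2⟩, ?_, ?_⟩
    · rintro x (rfl | rfl)
      · exact fun y hy => hy.1.1
      · exact fun y hy => hy.1.2
    · rintro ⟨U, hU1, hU2⟩ hU
      have h1 : U ⊆ S := hU (Or.inl rfl)
      have h2 : U ⊆ T := hU (Or.inr rfl)
      have hU3 := (triangle_iff U).mp hU2
      show U ⊆ J
      intro x hx
      refine ⟨⟨h1 hx, h2 hx⟩, ?_⟩
      rintro rfl
      rcases hU3.1 hx with h | h
      · exact Or.inl ⟨h1 h, h2 h⟩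
      · exact Or.inr ⟨h1 h, h2 h⟩

end Q53.AcyclicReorient
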